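import Pool.Agent.H18.MTP.ZP

/-!
# Row ZC of the board mtp: close changes
-/

set_option autoImplicit false

open Finset Filter Topology

namespace Pool.Agent.H18.MTP

open Pool.Agent.H31.MP

/-- the pairs -/
def PQ (M : ℕ) (I : Finset ℕ) : Finset (ℕ × ℕ) :=
  (I ×ˢ range M).filter fun q => q.2.Prime ∧ (q.2 + q.1).Prime

theorem card_PQ (M : ℕ) (I : Finset ℕ) :
    ((PQ M I).card : ℝ) = ∑ s ∈ I, ∑ p ∈ range M, ip p * ip (p + s) := by
  have h1 : ∀ s p, ip p * ip (p + s) = if p.Prime ∧ (p + s).Prime then (1 : ℝ) else 0 := by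
    intro s p
    unfold ip
    split_ifs <;> simp_all
  rw [PQ, card_filter, ← sum_product']
  push_cast
  exact sum_congr rfl fun q _ => (h1 q.1 q.2).symm

/-- the right endpoint -/
noncomputable def psi (m : ℕ) : ℕ := m + 2 + ⌊Real.log (m : ℝ)⌋₊

theorem psi_inj : Function.Injective psi := by
  have h : StrictMono psi := by
    intro a b hab
    unfold psi
    have h1 : ⌊Real.log (a : ℝ)⌋₊ ≤ ⌊Real.log (b : ℝ)⌋₊ := by
      rcases Nat.eq_zero_or_pos a with rfl | ha
      · simp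
      · exact Nat.floor_le_floor (Real.log_le_log (by exact_mod_cast ha) (by exact_mod_cast hab.le))
    omega
  exact h.injective

theorem inv_psi (m : ℕ) : Function.invFun psi (psi m) = m :=
  Function.leftInverse_invFun psi_inj m

theorem prime_card (n : ℕ) : ((range (2 * n + 1)).filter Nat.Prime).card =
    Nat.primeCounting (2 * n) := by
  rw [Nat.primeCounting, Nat.primeCounting', Nat.count_eq_card_filter_range]

/-- the combinatorial part -/
theorem zc_comb (n T c Λ : ℕ) (A : Finset ℕ) (hT : c + 10 ≤ T) (hΛ : 2 * T ≤ Λ)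
    (hA : ∀ m ∈ A, ∃ L m' : ℕ, ⌊Real.log (m : ℝ)⌋₊ = L ∧ ⌊Real.log (m' : ℝ)⌋₊ = L ∧ m < m' ∧
      m' ≤ m + T ∧ Ev m ∧ Ev m' ∧ Λ ≤ L + c ∧ L ≤ Λ + 1 ∧ m + 4 + Λ ≤ 2 * n) :
    A.card ≤ 2 * (PQ (2 * n + 1) (Icc 1 (1 + T))).card +
      (2 * (PQ (2 * n + 1) (Icc (Λ - c) (Λ - c + T))).card +
      (PQ (2 * n + 1) (Icc (Λ - c + T) (Λ - c + T + T))).card +
      (PQ (2 * n + 1) (Icc (Λ - c - T) (Λ - c - T + T))).card) := by
  classical
  set P0 := PQ (2 * n + 1) (Icc 1 (1 + T)) with hP0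
  set P1 := PQ (2 * n + 1) (Icc (Λ - c) (Λ - c + T)) with hP1
  set P2 := PQ (2 * n + 1) (Icc (Λ - c + T) (Λ - c + T + T)) with hP2
  set P3 := PQ (2 * n + 1) (Icc (Λ - c - T) (Λ - c - T + T)) with hP3
  have hsub : A ⊆ (P0.image fun q => q.2) ∪ (P0.image fun q => Function.invFun psi q.2) ∪
      ((P1.image fun q => q.2) ∪ (P2.image fun q => q.2)) ∪
      ((P3.image fun q => Function.invFun psi (q.2 + q.1)) ∪
        (P1.image fun q => Function.invFun psi (q.2 + q.1))) := by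
    intro m hm
    obtain ⟨L, m', hL, hL', h1, h2, h3, h4, h5, h6, h7⟩ := hA m hm
    have hpm : psi m = m + 2 + L := by rw [psi, hL]
    have hpm' : psi m' = m' + 2 + L := by rw [psi, hL']
    have hev : m.Prime ∨ (psi m).Prime := h3
    have hev' : m'.Prime ∨ (psi m').Prime := h4
    simp only [mem_union, mem_image, PQ, mem_filter, mem_product, mem_Icc, mem_range, hP0, hP1,
      hP2, hP3]
    rcases hev with e1 | e1 <;> rcases hev' with e2 | e2
    · -- both prime
      refine Or.inl (Or.inl (Or.inl ⟨(m' - m, m), ⟨⟨⟨?_, ?_⟩, ?_⟩, e1, ?_⟩, rfl⟩))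
      · show 1 ≤ m' - m; omega
      · show m' - m ≤ 1 + T; omega
      · show m < 2 * n + 1; omega
      · show (m + (m' - m)).Prime
        rw [show m + (m' - m) = m' by omega]; exact e2
    · -- `m` prime, `psi m'` prime
      have e3 : (m + (m' - m + 2 + L)).Prime := by
        rw [show m + (m' - m + 2 + L) = psi m' by rw [hpm']; omega]; exact e2
      refine Or.inl (Or.inr ?_)
      by_cases hs : m' - m + 2 + L ≤ Λ - c + T
      · refine Or.inl ⟨(m' - m + 2 + L, m), ⟨⟨⟨?_, ?_⟩, ?_⟩, e1, e3⟩, rfl⟩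
        · show Λ - c ≤ m' - m + 2 + L; omega
        · exact hs
        · show m < 2 * n + 1; omega
      · refine Or.inr ⟨(m' - m + 2 + L, m), ⟨⟨⟨?_, ?_⟩, ?_⟩, e1, e3⟩, rfl⟩
        · show Λ - c + T ≤ m' - m + 2 + L; omega
        · show m' - m + 2 + L ≤ Λ - c + T + T; omega
        · show m < 2 * n + 1; omega
    · -- `psi m` prime, `m'` prime
      have e3 : (m' + (2 + L - (m' - m))).Prime := by
        rw [show m' + (2 + L - (m' - m)) = psi m by rw [hpm]; omega]; exact e1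
      have e4 : Function.invFun psi (m' + (2 + L - (m' - m))) = m := by
        rw [show m' + (2 + L - (m' - m)) = psi m by rw [hpm]; omega]
        exact inv_psi m
      refine Or.inr ?_
      by_cases hs : 2 + L - (m' - m) ≤ Λ - c - T + T
      · refine Or.inl ⟨(2 + L - (m' - m), m'), ⟨⟨⟨?_, ?_⟩, ?_⟩, e2, e3⟩, e4⟩
        · show Λ - c - T ≤ 2 + L - (m' - m); omega
        · exact hs
        · show m' < 2 * n + 1; omega
      · refine Or.inr ⟨(2 + L - (m' - m), m'), ⟨⟨⟨?_, ?_⟩, ?_⟩, e2, e3⟩, e4⟩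
        · show Λ - c ≤ 2 + L - (m' - m); omega
        · show 2 + L - (m' - m) ≤ Λ - c + T; omega
        · show m' < 2 * n + 1; omega
    · -- both `psi` prime
      refine Or.inl (Or.inl (Or.inr ⟨(m' - m, psi m), ⟨⟨⟨?_, ?_⟩, ?_⟩, e1, ?_⟩, inv_psi m⟩))
      · show 1 ≤ m' - m; omega
      · show m' - m ≤ 1 + T; omega
      · show psi m < 2 * n + 1; omega
      · show (psi m + (m' - m)).Prime
        rw [show psi m + (m' - m) = psi m' by omega]; exact e2
  refine (card_le_card hsub).trans ?_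
  refine (card_union_le _ _).trans ?_
  have c1 := card_union_le ((P0.image fun q => q.2) ∪
    (P0.image fun q => Function.invFun psi q.2)) ((P1.image fun q => q.2) ∪ (P2.image fun q => q.2))
  have c2 := card_union_le (P0.image fun q => q.2) (P0.image fun q => Function.invFun psi q.2)
  have c3 := card_union_le (P1.image fun q => q.2) (P2.image fun q => q.2)
  have c4 := card_union_le (P3.image fun q => Function.invFun psi (q.2 + q.1))
    (P1.image fun q => Function.invFun psi (q.2 + q.1))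
  have d1 : (P0.image fun q => q.2).card ≤ P0.card := card_image_le
  have d2 : (P0.image fun q => Function.invFun psi q.2).card ≤ P0.card := card_image_le
  have d3 : (P1.image fun q => q.2).card ≤ P1.card := card_image_le
  have d4 : (P2.image fun q => q.2).card ≤ P2.card := card_image_le
  have d5 : (P3.image fun q => Function.invFun psi (q.2 + q.1)).card ≤ P3.card := card_image_le
  have d6 : (P1.image fun q => Function.invFun psi (q.2 + q.1)).card ≤ P1.card := card_image_le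
  omega

/-- the trivial bound -/
theorem zc_triv (n : ℕ) (A : Finset ℕ) (hA : ∀ m ∈ A, Ev m ∧ psi m ≤ 2 * n) :
    A.card ≤ 2 * Nat.primeCounting (2 * n) := by
  classical
  have hsub : A ⊆ ((range (2 * n + 1)).filter Nat.Prime) ∪
      (((range (2 * n + 1)).filter Nat.Prime).image (Function.invFun psi)) := by
    intro m hm
    obtain ⟨h1, h2⟩ := hA m hm
    have h3 : m ≤ psi m := by unfold psi; omega
    have h1' : m.Prime ∨ (psi m).Prime := h1
    rw [mem_union, mem_image]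
    rcases h1' with h | h
    · refine Or.inl (mem_filter.2 ⟨mem_range.2 (by omega), h⟩)
    · exact Or.inr ⟨psi m, mem_filter.2 ⟨mem_range.2 (by omega), h⟩, inv_psi m⟩
  refine (card_le_card hsub).trans ((card_union_le _ _).trans ?_)
  have h1 : (((range (2 * n + 1)).filter Nat.Prime).image (Function.invFun psi)).card ≤
      ((range (2 * n + 1)).filter Nat.Prime).card := card_image_le
  rw [← prime_card]
  omega

theorem pf_ZC (hZP : T_ZP) : T_ZC := by
  classical
  obtain ⟨C₀, hC₀, hZ⟩ := hZP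
  refine ⟨6 * C₀ + 16, by positivity, ?_⟩
  intro τ ε hτ hτ1 hε
  set c : ℕ := ⌈|Real.log ε|⌉₊ + 1 with hc
  have hcε : |Real.log ε| + 1 ≤ c := by
    rw [hc]; push_cast; linarith [Nat.le_ceil |Real.log ε|]
  obtain ⟨n₁, hn₁⟩ := hZ τ hτ hτ1
  have e1 : ∀ᶠ n : ℕ in atTop, ((c : ℝ) + 11) / τ ≤ Real.log n :=
    Pool.Agent.H21.PI.log_tendsto.eventually_ge_atTop _
  have e2 : ∀ᶠ n : ℕ in atTop, Real.log n ≤ (1 / 4) * (n : ℝ) := by
    have h1 := (Real.isLittleO_log_id_atTop).bound (show (0:ℝ) < 1 / 4 by norm_num)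
    have h2 := (tendsto_natCast_atTop_atTop (R := ℝ)).eventually h1
    filter_upwards [h2] with n hn
    rw [Real.norm_eq_abs, id, Real.norm_eq_abs, abs_of_nonneg (Nat.cast_nonneg n : (0:ℝ) ≤ n)] at hn
    exact (le_abs_self _).trans hn
  have e3 : ∀ᶠ n : ℕ in atTop, (Nat.primeCounting (2 * n) : ℝ) * Real.log ((2 * n : ℕ) : ℝ) /
      ((2 * n : ℕ) : ℝ) < 2 := by
    have h1 : Tendsto (fun n : ℕ => 2 * n) atTop atTop :=
      tendsto_id.const_mul_atTop' (by norm_num)
    exact h1.eventually (Pool.Agent.H21.PI.pi_tendsto.eventually (gt_mem_nhds (by norm_num)))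
  obtain ⟨n₀, hn₀⟩ := eventually_atTop.1 (e1.and (e2.and (e3.and (eventually_ge_atTop (max n₁ 100)))))
  refine ⟨n₀, fun n hn => ?_⟩
  obtain ⟨h1, h2, h3, h4⟩ := hn₀ n hn
  have hn100 : 100 ≤ n := (le_max_right _ _).trans h4
  have hnn₁ : n₁ ≤ n := (le_max_left _ _).trans h4
  have hnR : (100:ℝ) ≤ n := by exact_mod_cast hn100
  have hn0 : (0:ℝ) < n := by linarith
  set lam := Real.log n with hlam
  have hlam1 : (c : ℝ) + 11 ≤ τ * lam := by
    rw [div_le_iff₀ hτ] at h1; linarith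
  have hlam0 : 0 < lam := by
    have : (0:ℝ) ≤ c := Nat.cast_nonneg c
    by_contra h
    push Not at h
    have := mul_nonpos_of_nonneg_of_nonpos hτ.le h
    linarith
  set T := ⌊τ * lam⌋₊ with hT
  set Λ := ⌊lam⌋₊ with hΛ
  have hΛle : (Λ : ℝ) ≤ lam := Nat.floor_le hlam0.le
  have hΛlt : lam < Λ + 1 := Nat.lt_floor_add_one _
  set A := (range (2 * n)).filter (fun m : ℕ => ε * n ≤ (m : ℝ) ∧ (m : ℝ) ≤ 3 / 2 * n ∧
    ∃ m' : ℕ, m < m' ∧ m' ≤ m + ⌊τ * Real.log n⌋₊ ∧ Ev m ∧ Ev m' ∧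
      ⌊Real.log (m : ℝ)⌋₊ = ⌊Real.log (m' : ℝ)⌋₊) with hA
  have hAfin : ∀ m ∈ A, ⌊Real.log (m : ℝ)⌋₊ ≤ Λ + 1 ∧ Λ ≤ ⌊Real.log (m : ℝ)⌋₊ + c ∧
      m + 4 + Λ ≤ 2 * n := by
    intro m hm
    rw [hA, mem_filter] at hm
    obtain ⟨-, g1, g2, -⟩ := hm
    have hm0 : (0:ℝ) < m := lt_of_lt_of_le (by positivity) g1
    have g3 : Real.log m ≤ lam + 1 := by
      have : Real.log m ≤ Real.log (3 / 2 * n) := Real.log_le_log hm0 g2
      rw [Real.log_mul (by norm_num) hn0.ne'] at this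
      have h32 : Real.log (3 / 2) ≤ 1 := by
        have := Real.log_le_sub_one_of_pos (show (0:ℝ) < 3 / 2 by norm_num)
        linarith
      linarith
    have g4 : lam - |Real.log ε| ≤ Real.log m := by
      have : Real.log (ε * n) ≤ Real.log m := Real.log_le_log (by positivity) g1
      rw [Real.log_mul hε.ne' hn0.ne'] at this
      have := neg_abs_le (Real.log ε)
      linarith
    refine ⟨?_, ?_, ?_⟩
    · have : Real.log m < ((Λ + 1 + 1 : ℕ) : ℝ) := by push_cast; linarith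
      have := (Nat.floor_lt' (by omega)).2 this
      omega
    · have g5 : Real.log m < ⌊Real.log (m : ℝ)⌋₊ + 1 := Nat.lt_floor_add_one _
      have g6 : (Λ : ℝ) < (⌊Real.log (m : ℝ)⌋₊ : ℝ) + c + 1 := by linarith
      have g7 : Λ < ⌊Real.log (m : ℝ)⌋₊ + c + 1 := by exact_mod_cast g6
      omega
    · have g5 : ((m + 4 + Λ : ℕ) : ℝ) ≤ ((2 * n : ℕ) : ℝ) := by
        push_cast
        linarith
      exact_mod_cast g5
  rcases lt_or_ge τ (1 / 2) with hτ2 | hτ2
  · -- small `τ`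
    have hTc : c + 10 ≤ T := by
      have : ((c + 10 : ℕ) : ℝ) ≤ τ * lam := by push_cast; linarith
      exact Nat.le_floor this
    have hTle : (T : ℝ) ≤ τ * lam := Nat.floor_le (by positivity)
    have h2T : 2 * T ≤ Λ := by
      refine Nat.le_floor ?_
      push_cast
      nlinarith
    have hcomb := zc_comb n T c Λ A hTc h2T (by
      intro m hm
      obtain ⟨g1, g2, g3⟩ := hAfin m hm
      rw [hA, mem_filter] at hm
      obtain ⟨-, -, -, m', k1, k2, k3, k4, k5⟩ := hm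
      exact ⟨_, m', rfl, k5.symm, k1, k2, k3, k4, g2, g1, g3⟩)
    have hw : ∀ a : ℕ, 1 ≤ a → (a : ℝ) ≤ 3 * lam →
        ((PQ (2 * n + 1) (Icc a (a + T))).card : ℝ) ≤ C₀ * √τ * n / lam := by
      intro a ha1 ha2
      rw [card_PQ]
      exact hn₁ n hnn₁ a ha1 ha2
    have hT0 : (c : ℝ) + 10 ≤ T := by exact_mod_cast hTc
    have w0 := hw 1 le_rfl (by
      have : (1:ℝ) ≤ Λ := by exact_mod_cast (by omega : 1 ≤ Λ)
      push_cast; linarith)
    have w1 := hw (Λ - c) (by omega) (by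
      have : ((Λ - c : ℕ) : ℝ) ≤ Λ := by exact_mod_cast Nat.sub_le _ _
      linarith)
    have w2 := hw (Λ - c + T) (by omega) (by
      have k1 : ((Λ - c : ℕ) : ℝ) ≤ Λ := by exact_mod_cast Nat.sub_le _ _
      have k2 : (T : ℝ) ≤ Λ := by exact_mod_cast (by omega : T ≤ Λ)
      push_cast; linarith)
    have w3 := hw (Λ - c - T) (by omega) (by
      have : ((Λ - c - T : ℕ) : ℝ) ≤ Λ := by exact_mod_cast (by omega : Λ - c - T ≤ Λ)
      linarith)
    have hcomb' : (A.card : ℝ) ≤ 2 * ((PQ (2 * n + 1) (Icc 1 (1 + T))).card : ℝ) +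
      (2 * ((PQ (2 * n + 1) (Icc (Λ - c) (Λ - c + T))).card : ℝ) +
      ((PQ (2 * n + 1) (Icc (Λ - c + T) (Λ - c + T + T))).card : ℝ) +
      ((PQ (2 * n + 1) (Icc (Λ - c - T) (Λ - c - T + T))).card : ℝ)) := by
      exact_mod_cast hcomb
    have hpos : 0 ≤ √τ * n / lam := by positivity
    calc (A.card : ℝ) ≤ 6 * (C₀ * √τ * n / lam) := by linarith
      _ ≤ 6 * (C₀ * √τ * n / lam) + 16 * (√τ * n / lam) := by linarith
      _ = (6 * C₀ + 16) * √τ * n / lam := by ring
  · -- large `τ`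
    have ht := zc_triv n A (by
      intro m hm
      obtain ⟨g1, g2, g3⟩ := hAfin m hm
      rw [hA, mem_filter] at hm
      obtain ⟨-, -, -, m', k1, k2, k3, k4, k5⟩ := hm
      refine ⟨k3, ?_⟩
      unfold psi
      omega)
    have ht' : (A.card : ℝ) ≤ 2 * (Nat.primeCounting (2 * n) : ℝ) := by exact_mod_cast ht
    have hl2 : lam ≤ Real.log ((2 * n : ℕ) : ℝ) := by
      rw [hlam]
      exact Real.log_le_log hn0 (by push_cast; linarith)
    have h2n : (0:ℝ) < ((2 * n : ℕ) : ℝ) := by push_cast; linarith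
    rw [div_lt_iff₀ h2n] at h3
    have hπ0 : (0:ℝ) ≤ Nat.primeCounting (2 * n) := Nat.cast_nonneg _
    have h5 : (Nat.primeCounting (2 * n) : ℝ) * lam ≤ 4 * n := by
      have : (Nat.primeCounting (2 * n) : ℝ) * lam ≤
        (Nat.primeCounting (2 * n) : ℝ) * Real.log ((2 * n : ℕ) : ℝ) :=
        mul_le_mul_of_nonneg_left hl2 hπ0
      push_cast at h3 this ⊢
      linarith
    have hs : 1 / 2 ≤ √τ := by
      rw [show (1/2 : ℝ) = √(1 / 4) by
        rw [show (1 / 4 : ℝ) = (1 / 2) ^ 2 by norm_num, Real.sqrt_sq (by norm_num)]]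
      exact Real.sqrt_le_sqrt (by linarith)
    rw [le_div_iff₀ hlam0]
    calc (A.card : ℝ) * lam ≤ 2 * (Nat.primeCounting (2 * n) : ℝ) * lam := by gcongr
      _ ≤ 8 * n := by linarith
      _ ≤ 16 * √τ * n := by nlinarith
      _ ≤ (6 * C₀ + 16) * √τ * n := by
        have : 0 ≤ 6 * C₀ * √τ * n := by positivity
        linarith

end Pool.Agent.H18.MTP
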