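import Pool.Agent.H31.MP.Basic
import Pool.Agent.H21.PI.Mean2

/-!
# Row ZO of the board mtp: the zones
-/

set_option autoImplicit false

open Finset Filter Topology

namespace Pool.Agent.H18.MTP

open Pool.Agent.H31.MP
open Pool.Agent.H21.PI (X gam)

/-- the integral part of the logarithm -/
noncomputable def fl (m : ℕ) : ℕ := ⌊Real.log (m : ℝ)⌋₊

theorem fl_mono {a b : ℕ} (ha : 1 ≤ a) (hab : a ≤ b) : fl a ≤ fl b :=
  Nat.floor_le_floor (Real.log_le_log (by exact_mod_cast ha) (by exact_mod_cast hab))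

/-- jumps of the integral part of the logarithm -/
theorem jump_count (n T W U : ℕ) (hU : fl (n + W) ≤ U) (B : Finset ℕ) (hB : B ⊆ Icc 1 n)
    (h : ∀ k ∈ B, T < k ∧ ∃ m ∈ Icc (k - T) (k + W), fl m ≠ fl k) :
    B.card ≤ (U + 1) * (W + T + 1) := by
  have hsub : B ⊆ (range (U + 1)).biUnion fun u =>
      Icc (⌊Real.exp u⌋₊ - W) (⌊Real.exp u⌋₊ + T) := by
    intro k hk
    obtain ⟨h1, m, hm, hne⟩ := h k hk
    have hkn := (mem_Icc.1 (hB hk)).2
    rw [mem_Icc] at hm
    have h2 : 1 ≤ k - T := by omega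
    have h3 : fl (k - T) < fl (k + W) := by
      by_contra hcon
      push Not at hcon
      have a1 : fl (k - T) ≤ fl m := fl_mono h2 hm.1
      have a2 : fl m ≤ fl (k + W) := fl_mono (h2.trans hm.1) hm.2
      have a3 : fl (k - T) ≤ fl k := fl_mono h2 (Nat.sub_le _ _)
      have a4 : fl k ≤ fl (k + W) := fl_mono (by omega) (by omega)
      omega
    set u := fl (k + W) with hu
    have huU : u ≤ U := (fl_mono (by omega) (by omega)).trans hU
    rw [mem_biUnion]
    refine ⟨u, mem_range.2 (by omega), ?_⟩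
    have hkW : (0:ℝ) < ((k + W : ℕ) : ℝ) := by exact_mod_cast (by omega : 0 < k + W)
    have hkT : (0:ℝ) < ((k - T : ℕ) : ℝ) := by exact_mod_cast (by omega : 0 < k - T)
    have b1 : (u : ℝ) ≤ Real.log ((k + W : ℕ) : ℝ) := by
      refine Nat.floor_le (Real.log_nonneg ?_)
      exact_mod_cast (by omega : 1 ≤ k + W)
    have b2 : Real.log ((k - T : ℕ) : ℝ) < u := (Nat.floor_lt' (by omega)).1 h3
    have b3 : Real.exp u ≤ ((k + W : ℕ) : ℝ) := (Real.le_log_iff_exp_le hkW).1 b1
    have b4 : ((k - T : ℕ) : ℝ) < Real.exp u := (Real.log_lt_iff_lt_exp hkT).1 b2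
    have b5 : ⌊Real.exp u⌋₊ ≤ k + W := by
      have := Nat.floor_le (Real.exp_pos (u : ℝ)).le
      exact_mod_cast this.trans b3
    have b6 : k - T ≤ ⌊Real.exp u⌋₊ := Nat.le_floor b4.le
    rw [mem_Icc]
    omega
  refine (card_le_card hsub).trans (card_biUnion_le.trans ?_)
  refine (sum_le_card_nsmul _ _ (W + T + 1) fun u _ => ?_).trans (le_of_eq ?_)
  · rw [Nat.card_Icc]; omega
  · rw [card_range, smul_eq_mul]

/-- close pairs -/
theorem pair_count (R T : ℕ) (A B : Finset ℕ)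
    (h : ∀ k ∈ B, ∃ m ∈ A, m ∈ Icc (k - T) (k + R + T)) :
    B.card ≤ A.card * (R + 2 * T + 1) := by
  have hsub : B ⊆ A.biUnion fun m => Icc (m - (R + T)) (m + T) := by
    intro k hk
    obtain ⟨m, hm, hmk⟩ := h k hk
    rw [mem_Icc] at hmk
    rw [mem_biUnion]
    exact ⟨m, hm, mem_Icc.2 (by omega)⟩
  refine (card_le_card hsub).trans (card_biUnion_le.trans ?_)
  refine (sum_le_card_nsmul _ _ (R + 2 * T + 1) fun m _ => ?_).trans (le_of_eq ?_)
  · rw [Nat.card_Icc]; omega
  · rw [smul_eq_mul]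

/-- a jump near `k` -/
def J2 (R T k : ℕ) : Prop := T < k ∧ ∃ m ∈ Icc (k - T) (k + (R + T + 1)), fl m ≠ fl k

/-- double counting -/
theorem double_count (n R T t : ℕ) (P : ℕ → Prop) [DecidablePred P] (B : Finset ℕ) (hB : B ⊆ Icc 1 n)
    (h : ∀ k ∈ B, t ≤ ((Icc (k - T) (k + R + T)).filter P).card) :
    B.card * t ≤ ((range (n + R + T + 1)).filter P).card * (R + 2 * T + 1) := by
  have h1 : B.card * t ≤ ∑ k ∈ B, ((Icc (k - T) (k + R + T)).filter P).card := by
    have := card_nsmul_le_sum B (fun k => ((Icc (k - T) (k + R + T)).filter P).card) t h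
    rwa [smul_eq_mul] at this
  refine h1.trans ?_
  have h2 : ∀ k ∈ B, ((Icc (k - T) (k + R + T)).filter P).card ≤
      ∑ m ∈ (range (n + R + T + 1)).filter P, if m ∈ Icc (k - T) (k + R + T) then 1 else 0 := by
    intro k hk
    have hkn := (mem_Icc.1 (hB hk)).2
    rw [← card_filter]
    apply card_le_card
    intro m hm
    rw [mem_filter, mem_Icc] at hm
    rw [mem_filter, mem_filter, mem_range, mem_Icc]
    exact ⟨⟨by omega, hm.2⟩, hm.1⟩
  refine (sum_le_sum h2).trans ?_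
  rw [sum_comm]
  refine (sum_le_card_nsmul _ _ (R + 2 * T + 1) fun m _ => ?_).trans (le_of_eq ?_)
  · rw [← card_filter]
    refine (card_le_card (t := Icc (m - (R + T)) (m + T)) ?_).trans ?_
    · intro k hk
      rw [mem_filter, mem_Icc] at hk
      rw [mem_Icc]
      omega
    · rw [Nat.card_Icc]; omega
  · rw [smul_eq_mul]

theorem pf_ZO (hZC : T_ZC) (hZE : T_ZE) : T_ZO := by
  classical
  obtain ⟨C₀, hC₀, hZ⟩ := hZC
  intro j ε hε
  -- the parameters
  set σ : ℝ := min 1 (ε / (120 * C₀)) with hσ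
  have hσ0 : 0 < σ := lt_min one_pos (by positivity)
  have hσ1 : σ ≤ 1 := min_le_left _ _
  have hσε : 15 * C₀ * σ ≤ ε / 8 := by
    have h1 : σ ≤ ε / (120 * C₀) := min_le_right _ _
    rw [le_div_iff₀ (by positivity)] at h1
    linarith
  set τ : ℝ := σ ^ 2 with hτ
  have hτ0 : 0 < τ := by positivity
  have hτ1 : τ ≤ 1 := by rw [hτ]; nlinarith
  have hsτ : √τ = σ := Real.sqrt_sq hσ0.le
  refine ⟨ε * τ / 960, by positivity, ?_⟩
  obtain ⟨n₁, hn₁⟩ := hZ τ (ε / 16) hτ0 hτ1 (by positivity)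
  have e1 : ∀ᶠ n : ℕ in atTop, max 4 (8 / τ) ≤ Real.log n :=
    Pool.Agent.H21.PI.log_tendsto.eventually_ge_atTop _
  set q : ℝ := min (1 / 30) (min (ε / 240) (ε * τ / 14400)) with hq
  have hq0 : 0 < q := lt_min (by norm_num) (lt_min (by positivity) (by positivity))
  have hq1 : q ≤ 1 / 30 := min_le_left _ _
  have hq2 : q ≤ ε / 240 := (min_le_right _ _).trans (min_le_left _ _)
  have hq3 : q ≤ ε * τ / 14400 := (min_le_right _ _).trans (min_le_right _ _)
  have e2 : ∀ᶠ n : ℕ in atTop, Real.log n ^ 2 ≤ q * (n : ℝ) := by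
    have h1 := (isLittleO_log_rpow_atTop (show (0:ℝ) < 1 / 2 by norm_num)).bound
      (show (0:ℝ) < √q by positivity)
    have h2 := (tendsto_natCast_atTop_atTop (R := ℝ)).eventually h1
    filter_upwards [h2, eventually_ge_atTop 1] with n hn hn1
    have hn0 : (0:ℝ) < n := by exact_mod_cast (by omega : 0 < n)
    have hl : 0 ≤ Real.log n := Real.log_nonneg (by exact_mod_cast hn1)
    rw [Real.norm_eq_abs, Real.norm_eq_abs, abs_of_nonneg hl,
      abs_of_nonneg (by positivity)] at hn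
    calc (Real.log n) ^ 2 ≤ (√q * (n:ℝ) ^ (1 / 2 : ℝ)) ^ 2 := by gcongr
      _ = q * n := by
        rw [mul_pow, Real.sq_sqrt hq0.le, ← Real.rpow_natCast, ← Real.rpow_mul hn0.le]
        norm_num
  obtain ⟨n₀, hn₀⟩ := eventually_atTop.1 (e1.and (e2.and (eventually_ge_atTop (max n₁ 1))))
  refine ⟨n₀, fun n hn hgam => ?_⟩
  obtain ⟨h1, h2, h4⟩ := hn₀ n hn
  have hn1 : 1 ≤ n := (le_max_right _ _).trans h4
  have hnn₁ : n₁ ≤ n := (le_max_left _ _).trans h4
  have hn0 : (0:ℝ) < n := by exact_mod_cast hn1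
  set lam := Real.log n with hlam
  have hl4 : 4 ≤ lam := (le_max_left _ _).trans h1
  have hlτ : 8 ≤ τ * lam := by
    have := (le_max_right _ _).trans h1
    rw [div_le_iff₀ hτ0] at this; linarith
  have hlq : lam ≤ q * n := by nlinarith
  set T := ⌊τ * lam⌋₊ with hT
  set R := ⌈12 * lam⌉₊ with hR
  have hTle : (T : ℝ) ≤ τ * lam := Nat.floor_le (by positivity)
  have hTle' : (T : ℝ) ≤ lam := hTle.trans (by nlinarith)
  have hTlt : τ * lam < T + 1 := Nat.lt_floor_add_one _
  have hRle : (R : ℝ) < 12 * lam + 1 := Nat.ceil_lt_add_one (by positivity)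
  have hRge : 12 * lam ≤ (R : ℝ) := Nat.le_ceil _
  have hT1 : 1 ≤ T := by
    refine Nat.le_floor ?_
    push_cast; linarith
  have hqn : q * n ≤ n / 30 := by nlinarith
  -- the sets
  set B1 := (Icc 1 n).filter (fun k : ℕ => (k : ℝ) ≤ ε * n / 8) with hB1
  set B2 := (Icc 1 n).filter (J2 R T) with hB2
  set A := (range (2 * n)).filter (fun m : ℕ => ε / 16 * n ≤ (m : ℝ) ∧ (m : ℝ) ≤ 3 / 2 * n ∧
    ∃ m' : ℕ, m < m' ∧ m' ≤ m + ⌊τ * Real.log n⌋₊ ∧ Ev m ∧ Ev m' ∧
      ⌊Real.log (m : ℝ)⌋₊ = ⌊Real.log (m' : ℝ)⌋₊) with hA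
  set B3 := (Icc 1 n).filter (fun k : ℕ => ∃ m ∈ A, m ∈ Icc (k - T) (k + R + T)) with hB3
  set B4 := (Icc 1 n).filter (fun k : ℕ =>
    T / 2 ≤ ((Icc (k - T) (k + R + T)).filter (fun m => X m = j)).card) with hB4
  have hAc : (A.card : ℝ) ≤ C₀ * √τ * n / lam := hn₁ n hnn₁
  rw [hsτ] at hAc
  -- the sizes
  have s1 : (B1.card : ℝ) ≤ ε * n / 8 := by
    have : B1 ⊆ Icc 1 ⌊ε * n / 8⌋₊ := by
      intro k hk
      rw [hB1, mem_filter, mem_Icc] at hk
      exact mem_Icc.2 ⟨hk.1.1, Nat.le_floor hk.2⟩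
    have h5 : B1.card ≤ ⌊ε * n / 8⌋₊ := by
      have := card_le_card this
      rwa [Nat.card_Icc, Nat.add_sub_cancel] at this
    calc (B1.card : ℝ) ≤ (⌊ε * n / 8⌋₊ : ℝ) := by exact_mod_cast h5
      _ ≤ _ := Nat.floor_le (by positivity)
  have s2 : (B2.card : ℝ) ≤ ε * n / 8 := by
    have hfl : fl (n + (R + T + 1)) ≤ ⌊lam⌋₊ + 1 := by
      unfold fl
      have h5 : Real.log ((n + (R + T + 1) : ℕ) : ℝ) ≤ lam + 1 := by
        have h6 : ((n + (R + T + 1) : ℕ) : ℝ) ≤ 2 * n := by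
          push_cast
          linarith
        have h7 : Real.log ((n + (R + T + 1) : ℕ) : ℝ) ≤ Real.log (2 * n) :=
          Real.log_le_log (by exact_mod_cast (by omega : 0 < n + (R + T + 1))) h6
        rw [Real.log_mul (by norm_num) hn0.ne'] at h7
        have := Real.log_two_lt_d9
        linarith
      have h8 : ⌊lam⌋₊ + 1 = ⌊lam + 1⌋₊ := (Nat.floor_add_one (by linarith)).symm
      rw [h8]
      exact Nat.floor_le_floor h5
    have h5 := jump_count n T (R + T + 1) (⌊lam⌋₊ + 1) hfl B2 (filter_subset _ _) (by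
      intro k hk
      exact (mem_filter.1 hk).2)
    have h6 : (B2.card : ℝ) ≤ ((⌊lam⌋₊ : ℝ) + 1 + 1) * ((R : ℝ) + T + 1 + T + 1) := by
      exact_mod_cast h5
    have h7 : (⌊lam⌋₊ : ℝ) ≤ lam := Nat.floor_le (by linarith)
    calc (B2.card : ℝ) ≤ ((⌊lam⌋₊ : ℝ) + 1 + 1) * ((R : ℝ) + T + 1 + T + 1) := h6
      _ ≤ (2 * lam) * (15 * lam) := by
          refine mul_le_mul (by linarith) (by linarith) (by positivity) (by positivity)
      _ = 30 * lam ^ 2 := by ring
      _ ≤ 30 * (q * n) := by linarith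
      _ ≤ ε * n / 8 := by nlinarith
  have s3 : (B3.card : ℝ) ≤ ε * n / 8 := by
    have h5 := pair_count R T A B3 (fun k hk => (mem_filter.1 hk).2)
    have h6 : (B3.card : ℝ) ≤ (A.card : ℝ) * ((R : ℝ) + 2 * T + 1) := by exact_mod_cast h5
    calc (B3.card : ℝ) ≤ (A.card : ℝ) * ((R : ℝ) + 2 * T + 1) := h6
      _ ≤ (C₀ * σ * n / lam) * (15 * lam) := by
          refine mul_le_mul hAc (by linarith) (by positivity) (by positivity)
      _ = (15 * C₀ * σ) * n := by field_simp
      _ ≤ ε / 8 * n := by gcongr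
      _ = ε * n / 8 := by ring
  have s4 : (B4.card : ℝ) ≤ ε * n / 8 := by
    have h5 := double_count n R T (T / 2) (fun m => X m = j) B4 (filter_subset _ _)
      (fun k hk => (mem_filter.1 hk).2)
    have h6 : ((range (n + R + T + 1)).filter (fun m => X m = j)).card ≤
        ((Icc 1 n).filter (fun m => X m = j)).card + (R + T + 1) := by
      have h7 : (range (n + R + T + 1)).filter (fun m => X m = j) ⊆
          ((Icc 1 n).filter (fun m => X m = j)) ∪ ({0} ∪ Icc (n + 1) (n + R + T)) := by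
        intro m hm
        rw [mem_filter, mem_range] at hm
        rw [mem_union, mem_union, mem_filter, mem_Icc, mem_singleton, mem_Icc]
        by_cases hm0 : m = 0
        · exact Or.inr (Or.inl hm0)
        · by_cases hmn : m ≤ n
          · exact Or.inl ⟨⟨by omega, hmn⟩, hm.2⟩
          · exact Or.inr (Or.inr (by omega))
      refine (card_le_card h7).trans ((card_union_le _ _).trans ?_)
      have h8 := card_union_le ({0} : Finset ℕ) (Icc (n + 1) (n + R + T))
      rw [card_singleton, Nat.card_Icc] at h8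
      omega
    have h7 : (((Icc 1 n).filter (fun m => X m = j)).card : ℝ) < ε * τ / 960 * n := by
      unfold gam at hgam
      rw [div_lt_iff₀ hn0] at hgam
      exact hgam
    have h8 : (B4.card : ℝ) * ((T / 2 : ℕ) : ℝ) ≤
        (ε * τ / 960 * n + ((R : ℝ) + T + 1)) * ((R : ℝ) + 2 * T + 1) := by
      calc (B4.card : ℝ) * ((T / 2 : ℕ) : ℝ) ≤
          ((((Icc 1 n).filter (fun m => X m = j)).card + (R + T + 1) : ℕ) : ℝ) *
            ((R : ℝ) + 2 * T + 1) := by
            exact_mod_cast h5.trans (Nat.mul_le_mul_right _ h6)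
        _ ≤ _ := by
            push_cast
            refine mul_le_mul_of_nonneg_right ?_ (by positivity)
            linarith
    have h9 : τ * lam / 4 ≤ ((T / 2 : ℕ) : ℝ) := by
      have h10 : T ≤ 2 * (T / 2) + 1 := by omega
      have h11 : (T : ℝ) ≤ 2 * ((T / 2 : ℕ) : ℝ) + 1 := by exact_mod_cast h10
      linarith
    have h10 : (B4.card : ℝ) * (τ * lam / 4) ≤ (ε * τ / 960 * n + 15 * lam) * (15 * lam) := by
      refine (mul_le_mul_of_nonneg_left h9 (Nat.cast_nonneg _)).trans (h8.trans ?_)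
      refine mul_le_mul (by linarith) (by linarith) (by positivity) (by positivity)
    have h11 : 15 * lam ≤ ε * τ / 960 * n := by
      have : q * n ≤ ε * τ / 14400 * n := by gcongr
      linarith
    have h12 : (B4.card : ℝ) * (τ * lam / 4) ≤ (ε * n / 8) * (τ * lam / 4) := by
      refine h10.trans ?_
      calc (ε * τ / 960 * n + 15 * lam) * (15 * lam) ≤
          (ε * τ / 960 * n + ε * τ / 960 * n) * (15 * lam) := by gcongr
        _ = (ε * n / 8) * (τ * lam / 4) := by ring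
    exact le_of_mul_le_mul_right h12 (by positivity)
  refine ⟨B1 ∪ B2 ∪ (B3 ∪ B4), ?_, ?_, ?_⟩
  · refine union_subset (union_subset (filter_subset _ _) (filter_subset _ _))
      (union_subset (filter_subset _ _) (filter_subset _ _))
  · have c1 := card_union_le (B1 ∪ B2) (B3 ∪ B4)
    have c2 := card_union_le B1 B2
    have c3 := card_union_le B3 B4
    have c4 : (B1 ∪ B2 ∪ (B3 ∪ B4)).card ≤ B1.card + B2.card + (B3.card + B4.card) := by omega
    have c5 : ((B1 ∪ B2 ∪ (B3 ∪ B4)).card : ℝ) ≤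
      B1.card + B2.card + (B3.card + B4.card) := by exact_mod_cast c4
    have : 0 ≤ ε * n := by positivity
    linarith
  · intro k hk hkB
    rw [mem_union, mem_union, mem_union] at hkB
    push Not at hkB
    obtain ⟨⟨k1, k2⟩, k3, k4⟩ := hkB
    have hk' := mem_Icc.1 hk
    have g1 : ε * n / 8 < k := by
      by_contra h
      push Not at h
      exact k1 (mem_filter.2 ⟨hk, h⟩)
    have gTε : (T : ℝ) ≤ ε * n / 16 := by nlinarith
    have gT : T < k := by
      have : (T : ℝ) < k := by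
        have : 0 < ε * n := by positivity
        linarith
      exact_mod_cast this
    have g2 : ∀ m ∈ Icc (k - T) (k + R + T + 1), ⌊Real.log (m : ℝ)⌋₊ = fl k := by
      intro m hm
      by_contra h
      refine k2 (mem_filter.2 ⟨hk, gT, m, ?_, h⟩)
      rw [mem_Icc] at hm ⊢
      omega
    have g3 : ∀ m ∈ Icc (k - T) (k + R + T), ∀ m' ∈ Icc (k - T) (k + R + T), m < m' →
        m' ≤ m + T → ¬ (Ev m ∧ Ev m') := by
      intro m hm m' hm' hmm hmT ⟨hE, hE'⟩
      refine k3 (mem_filter.2 ⟨hk, m, ?_, hm⟩)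
      have hm2 := mem_Icc.1 hm
      have hm2' := mem_Icc.1 hm'
      have i1 : (m : ℝ) ≤ n + R + T := by
        exact_mod_cast (by omega : m ≤ n + R + T)
      have i2 : (k : ℝ) ≤ m + T := by
        exact_mod_cast (by omega : k ≤ m + T)
      have i3 : (m : ℝ) ≤ 3 / 2 * n := by linarith
      have i4 : m < 2 * n := by
        have : (m : ℝ) < ((2 * n : ℕ) : ℝ) := by push_cast; linarith
        exact_mod_cast this
      refine mem_filter.2 ⟨mem_range.2 i4, by linarith, i3, m', hmm, hmT, hE, hE', ?_⟩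
      rw [g2 m (mem_Icc.2 (by omega)), g2 m' (mem_Icc.2 (by omega))]
    have g4 : ((Icc (k - T) (k + R + T)).filter (fun m => X m = j)).card < T / 2 := by
      by_contra h
      push Not at h
      exact k4 (mem_filter.2 ⟨hk, h⟩)
    obtain ⟨z1, z2⟩ := hZE j k T R (fl k) hT1 gT.le g2 g3
    have z3 : ∀ m ∈ Icc k (k + R), X m ≠ j := by
      intro m hm hX
      have := z1 ⟨m, hm, hX⟩
      omega
    have hmem : ∀ m : ℕ, k ≤ m → (m : ℝ) ≤ k + 12 * Real.log n → m ∈ Icc k (k + R) := by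
      intro m h5 h6
      refine mem_Icc.2 ⟨h5, ?_⟩
      have : (m : ℝ) ≤ ((k + R : ℕ) : ℝ) := by push_cast; linarith
      exact_mod_cast this
    rcases z2 z3 with z4 | z4
    · exact Or.inl fun m h5 h6 => z4 m (hmem m h5 h6)
    · exact Or.inr fun m h5 h6 => z4 m (hmem m h5 h6)

end Pool.Agent.H18.MTP
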