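import Pool.Agent.H31.MP.Basic
import Pool.Agent.H21.PI.Second

/-!
# Row ZP of the board mtp: pairs of primes
-/

set_option autoImplicit false

open Finset Filter Topology

namespace Pool.Agent.H18.MTP

open Pool.Agent.H31.MP
open Pool.Agent.H21.PI (D f one_le_f D_odd D_even)

theorem sum_ip (M s : ℕ) : ∑ p ∈ range M, ip p * ip (p + s) = (D M s : ℝ) := by
  have h1 : ∀ p, ip p * ip (p + s) = if p.Prime ∧ (p + s).Prime then (1 : ℝ) else 0 := by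
    intro p
    unfold ip
    split_ifs <;> simp_all
  rw [sum_congr rfl (fun p _ => h1 p), ← sum_filter, sum_const, nsmul_eq_mul, mul_one]
  rfl

theorem D_bound (M s z : ℕ) (hz : 1 ≤ z) (hs : 1 ≤ s) :
    (D M s : ℝ) ≤ 1 + 2 * (z : ℝ) ^ 12 +
      9 * M / (Real.log (z + 1)) ^ 2 * (if Even s then f (s / 2) ^ 2 else 0) := by
  have hz2 : (z : ℝ) ^ 2 ≤ (z : ℝ) ^ 12 := pow_le_pow_right₀ (by exact_mod_cast hz) (by norm_num)
  have hz0 : (0 : ℝ) ≤ (z : ℝ) ^ 12 := by positivity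
  split_ifs with he
  · obtain ⟨t, ht⟩ := he
    have h1 : s = 2 * t := by omega
    have h2 : s / 2 = t := by omega
    rw [h2, h1]
    have h3 := D_even M t z (by omega) hz
    have h4 : 9 * (f t) ^ 2 * M / (Real.log (z + 1)) ^ 2 =
      9 * M / (Real.log (z + 1)) ^ 2 * f t ^ 2 := by ring
    linarith
  · have h3 : (D M s : ℝ) ≤ 1 := by exact_mod_cast D_odd M s he
    rw [mul_zero]
    linarith

theorem sum_even_f (a b T : ℕ) (ha : 1 ≤ a) (hT : b / 2 ≤ T) :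
    ∑ s ∈ Icc a b, (if Even s then f (s / 2) ^ 4 else 0) ≤ ∑ t ∈ Icc 1 T, f t ^ 4 := by
  rw [← sum_filter]
  rw [← sum_image (s := (Icc a b).filter Even) (g := fun j => j / 2) (f := fun t => f t ^ 4)]
  · apply sum_le_sum_of_subset_of_nonneg
    · intro t ht
      rw [mem_image] at ht
      obtain ⟨j, hj, rfl⟩ := ht
      rw [mem_filter, mem_Icc] at hj
      obtain ⟨hj1, s, hs⟩ := hj
      rw [mem_Icc]
      omega
    · intro s _ _
      have := one_le_f s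
      positivity
  · intro a ha b hb hab
    rw [mem_coe, mem_filter] at ha hb
    obtain ⟨_, s, hs⟩ := ha
    obtain ⟨_, s', hs'⟩ := hb
    simp only at hab
    omega

theorem sum_even_sq (a b T : ℕ) (ha : 1 ≤ a) (hT : b / 2 ≤ T) :
    (∑ s ∈ Icc a b, (if Even s then f (s / 2) ^ 2 else 0)) ^ 2 ≤
      ((Icc a b).card : ℝ) * (Pool.Agent.H75.PS.CC ^ 4 * T) := by
  refine (sq_sum_le_card_mul_sum_sq).trans (mul_le_mul_of_nonneg_left ?_ (Nat.cast_nonneg _))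
  have h1 : ∀ s ∈ Icc a b, (if Even s then f (s / 2) ^ 2 else 0) ^ 2 =
      (if Even s then f (s / 2) ^ 4 else 0) := by
    intro s _
    split_ifs
    · ring
    · norm_num
  rw [sum_congr rfl h1]
  exact (sum_even_f a b T ha hT).trans (Pool.Agent.H75.PS.moment T)

theorem pf_ZP : T_ZP := by
  set c := Pool.Agent.H75.PS.CC with hc
  have hc0 : 0 ≤ c := Pool.Agent.H75.PS.CC_nonneg
  refine ⟨1 + 48600 * c ^ 2, by positivity, ?_⟩
  intro τ hτ hτ1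
  -- the growth conditions
  have e2 : ∀ᶠ n : ℕ in atTop, max 2 (1 / τ) ≤ Real.log n :=
    Pool.Agent.H21.PI.log_tendsto.eventually_ge_atTop _
  have e3 : ∀ᶠ n : ℕ in atTop, (Real.log n) ^ 2 ≤ (n:ℝ) ^ (1 / 2 : ℝ) := by
    have h1 := (isLittleO_log_rpow_atTop (show (0:ℝ) < 1 / 4 by norm_num)).bound
      (show (0:ℝ) < 1 by norm_num)
    have h2 := (tendsto_natCast_atTop_atTop (R := ℝ)).eventually h1
    filter_upwards [h2, eventually_ge_atTop 1] with n hn hn1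
    have hn0 : (0:ℝ) < n := by exact_mod_cast (by omega : 0 < n)
    have hl : 0 ≤ Real.log n := Real.log_nonneg (by exact_mod_cast hn1)
    rw [Real.norm_eq_abs, Real.norm_eq_abs, abs_of_nonneg hl,
      abs_of_nonneg (by positivity), one_mul] at hn
    calc (Real.log n) ^ 2 ≤ ((n:ℝ) ^ (1 / 4 : ℝ)) ^ 2 := by gcongr
      _ = (n:ℝ) ^ (1 / 2 : ℝ) := by
        rw [← Real.rpow_natCast, ← Real.rpow_mul hn0.le]
        norm_num
  have e4 : ∀ᶠ n : ℕ in atTop, (6:ℝ) ≤ (n:ℝ) ^ (1 / 10 : ℝ) :=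
    ((tendsto_rpow_atTop (show (0:ℝ) < 1 / 10 by norm_num)).comp
      (tendsto_natCast_atTop_atTop (R := ℝ))).eventually_ge_atTop 6
  obtain ⟨n₀, hn₀⟩ := eventually_atTop.1 (e2.and (e3.and (e4.and (eventually_ge_atTop 1))))
  refine ⟨n₀, fun n hn a ha1 ha3 => ?_⟩
  obtain ⟨h2, h3, h4, hn1⟩ := hn₀ n hn
  have hn0 : (0:ℝ) < n := by exact_mod_cast (by omega : 0 < n)
  have hn1' : (1:ℝ) ≤ n := by exact_mod_cast hn1
  set L := Real.log n with hLdef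
  have hL2 : 2 ≤ L := (le_max_left _ _).trans h2
  have hLτ : 1 / τ ≤ L := (le_max_right _ _).trans h2
  have hL0 : 0 < L := by linarith
  have hτL : 1 ≤ τ * L := by
    rw [div_le_iff₀ hτ] at hLτ; linarith
  set z := ⌊(n:ℝ) ^ (1 / 30 : ℝ)⌋₊ with hz
  have hzr : (1:ℝ) ≤ (n:ℝ) ^ (1 / 30 : ℝ) := Real.one_le_rpow hn1' (by norm_num)
  have hz1 : 1 ≤ z := Nat.le_floor (by exact_mod_cast hzr)
  have hzle : (z:ℝ) ≤ (n:ℝ) ^ (1 / 30 : ℝ) := Nat.floor_le (by positivity)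
  have hzlt : (n:ℝ) ^ (1 / 30 : ℝ) < z + 1 := Nat.lt_floor_add_one _
  have hlz : L / 30 ≤ Real.log (z + 1) := by
    have : Real.log ((n:ℝ) ^ (1 / 30 : ℝ)) = L / 30 := by
      rw [Real.log_rpow hn0]
      ring
    rw [← this]
    exact Real.log_le_log (by positivity) hzlt.le
  have b1 : (z:ℝ) ^ 12 ≤ (n:ℝ) ^ (2 / 5 : ℝ) := by
    calc (z:ℝ) ^ 12 ≤ ((n:ℝ) ^ (1 / 30 : ℝ)) ^ 12 := by gcongr
      _ = (n:ℝ) ^ (2 / 5 : ℝ) := by
        rw [← Real.rpow_natCast, ← Real.rpow_mul hn0.le]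
        norm_num
  have b1' : (1:ℝ) ≤ (n:ℝ) ^ (2 / 5 : ℝ) := Real.one_le_rpow hn1' (by norm_num)
  set W := ⌊τ * L⌋₊ with hW
  set T := ⌊2 * L⌋₊ with hT
  have hWle : (W : ℝ) ≤ τ * L := Nat.floor_le (by positivity)
  have hTle : (T : ℝ) ≤ 2 * L := Nat.floor_le (by positivity)
  have hbT : (a + W) / 2 ≤ T := by
    refine Nat.le_floor ?_
    have h5 : (((a + W) / 2 : ℕ) : ℝ) ≤ ((a + W : ℕ) : ℝ) / 2 := Nat.cast_div_le
    refine h5.trans ?_
    push_cast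
    have h6 : τ * L ≤ L := by nlinarith
    linarith
  have hcard : ((Icc a (a + W)).card : ℝ) ≤ 2 * (τ * L) := by
    rw [Nat.card_Icc]
    have h5 : a + W + 1 - a = W + 1 := by omega
    rw [h5]
    push_cast
    linarith
  -- the sum
  have hsum : ∑ s ∈ Icc a (a + W), ∑ p ∈ range (2 * n + 1), ip p * ip (p + s) ≤
      ((Icc a (a + W)).card : ℝ) * (1 + 2 * (z : ℝ) ^ 12) +
      9 * (2 * n + 1 : ℕ) / (Real.log (z + 1)) ^ 2 *
        ∑ s ∈ Icc a (a + W), (if Even s then f (s / 2) ^ 2 else 0) := by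
    rw [mul_sum, ← nsmul_eq_mul, ← sum_const, ← sum_add_distrib]
    refine sum_le_sum fun s hs => ?_
    rw [sum_ip]
    exact D_bound _ s z hz1 (ha1.trans (mem_Icc.1 hs).1)
  refine hsum.trans ?_
  set S := ∑ s ∈ Icc a (a + W), (if Even s then f (s / 2) ^ 2 else 0) with hS
  have hS0 : 0 ≤ S := sum_nonneg fun s _ => by
    split_ifs
    · positivity
    · exact le_rfl
  have hsτ : 0 ≤ √τ := Real.sqrt_nonneg _
  have hsτ2 : √τ ^ 2 = τ := Real.sq_sqrt hτ.le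
  have hSle : S ≤ 2 * c ^ 2 * √τ * L := by
    have h5 := sum_even_sq a (a + W) T ha1 hbT
    rw [← hS] at h5
    have h6 : S ^ 2 ≤ (2 * c ^ 2 * √τ * L) ^ 2 := by
      calc S ^ 2 ≤ ((Icc a (a + W)).card : ℝ) * (c ^ 4 * T) := h5
        _ ≤ (2 * (τ * L)) * (c ^ 4 * (2 * L)) := by gcongr
        _ = 4 * c ^ 4 * τ * L ^ 2 := by ring
        _ = (2 * c ^ 2 * √τ * L) ^ 2 := by rw [mul_pow, mul_pow, hsτ2]; ring
    exact (abs_le_of_sq_le_sq' h6 (by positivity)).2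
  have hfac : 9 * ((2 * n + 1 : ℕ) : ℝ) / (Real.log (z + 1)) ^ 2 ≤ 24300 * n / L ^ 2 := by
    calc 9 * ((2 * n + 1 : ℕ) : ℝ) / (Real.log (z + 1)) ^ 2 ≤ 9 * (3 * n) / (L / 30) ^ 2 := by
          gcongr
          push_cast; linarith
      _ = 24300 * n / L ^ 2 := by field_simp; ring
  have hmain : 9 * ((2 * n + 1 : ℕ) : ℝ) / (Real.log (z + 1)) ^ 2 * S ≤
      48600 * c ^ 2 * √τ * n / L := by
    calc _ ≤ 24300 * n / L ^ 2 * (2 * c ^ 2 * √τ * L) := by gcongr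
      _ = 48600 * c ^ 2 * √τ * n / L := by field_simp; ring
  have hτs : τ ≤ √τ := by
    have h5 : √τ ≤ 1 := Real.sqrt_le_one.2 hτ1
    nlinarith
  have herr : ((Icc a (a + W)).card : ℝ) * (1 + 2 * (z : ℝ) ^ 12) ≤ √τ * n / L := by
    have h5 : 1 + 2 * (z : ℝ) ^ 12 ≤ 3 * (n:ℝ) ^ (2 / 5 : ℝ) := by linarith
    rw [le_div_iff₀ hL0]
    calc ((Icc a (a + W)).card : ℝ) * (1 + 2 * (z : ℝ) ^ 12) * L
        ≤ (2 * (√τ * L)) * (3 * (n:ℝ) ^ (2 / 5 : ℝ)) * L := by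
          have h6 : ((Icc a (a + W)).card : ℝ) ≤ 2 * (√τ * L) :=
            hcard.trans (by gcongr)
          gcongr
      _ = 6 * √τ * (L ^ 2 * (n:ℝ) ^ (2 / 5 : ℝ)) := by ring
      _ ≤ 6 * √τ * ((n:ℝ) ^ (1 / 2 : ℝ) * (n:ℝ) ^ (2 / 5 : ℝ)) := by gcongr
      _ = √τ * (6 * (n:ℝ) ^ (9 / 10 : ℝ)) := by
          rw [← Real.rpow_add hn0]; norm_num; ring
      _ ≤ √τ * ((n:ℝ) ^ (1 / 10 : ℝ) * (n:ℝ) ^ (9 / 10 : ℝ)) := by gcongr
      _ = √τ * n := by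
          rw [← Real.rpow_add hn0]; norm_num
  calc _ ≤ √τ * n / L + 48600 * c ^ 2 * √τ * n / L := add_le_add herr hmain
    _ = (1 + 48600 * c ^ 2) * √τ * n / L := by ring

end Pool.Agent.H18.MTP
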